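import Mathlib
import Pool.Agent.V1170.KanCore

/-!
# MP_aeea9f_an, Q1: disconnected random Julia sets for the complexified Kan skew product

The definitions (`chord`, `NormalOn`, `fatouSet`, `E`, `f`, `fiter`, `fhat`, `Fatou`, `Julia`) are
in `Pool/Agent/V1170/KanDefs.lean`.
-/

namespace Pool.Agent.Results.MP_aeea9f_an.PositiveMeasure

open Pool.Agent.V1170.Kan MeasureTheory

/-- For every integer `L > 1` and every complex `α` with `0 < |α| < 1` there is a measurable set
`Λ ⊆ [0,1)` of positive Lebesgue measure such that the random Julia set `𝓙_u` is disconnected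
for every `u ∈ Λ`. -/
theorem result (L : ℕ) (hL : 1 < L) (α : ℂ) (h0 : 0 < ‖α‖) (h1 : ‖α‖ < 1) :
    ∃ Λ : Set ℝ, Λ ⊆ Set.Ico 0 1 ∧ MeasurableSet Λ ∧ 0 < volume Λ ∧
      ∀ u ∈ Λ, ¬ IsPreconnected (Julia L α u) :=
  ⟨Lam L (th L), Lam_sub L hL.le (th L), Lam_meas L (th L),
    Lam_pos L hL.le (th L) (th_nonneg L) (th_le L), fun u hu => main L hL α h0 h1 u hu⟩

end Pool.Agent.Results.MP_aeea9f_an.PositiveMeasure
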